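import Pool.Agent.Lib.MP_3d3a24_gt.Cube

/-!
# A convex body that looks centrally symmetric from all points of a cube, and is not an ellipsoid

The body is the closed convex hull of an orbit on the unit sphere of a free product of groups of
order two, generated by harmonic homologies (point reflections of the Klein model of hyperbolic
space) whose axes are the planes of the facets of the cube.
-/

set_option autoImplicit false

namespace Pool.Agent.Results.MP_3d3a24_gt.Counterexample

open Pool.Agent.Lib.MP_3d3a24_gt

/-- Q1 has a negative answer in every dimension `n ≥ 2` (in particular for every `n ≥ 3`): there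
are a closed surface `S` homeomorphic to the sphere, which may be taken to be the boundary of the
cube `{x | ∀ j, |x j| ≤ 10 / 9}`, and a convex body `K` inside `S` which appears centrally
symmetric from every point of `S`, but is not an ellipsoid. -/
theorem result (n : ℕ) (hn : 2 ≤ n) : ∃ K S : Set (E n),
    IsConvexBody K ∧ IsTopologicalSphere S ∧ LiesInside K S ∧
    (∀ p ∈ S, AppearsSymmetric K p) ∧ ¬ IsEllipsoid K ∧
    S = frontier {x : E n | ∀ j, |x j| ≤ 10 / 9} :=
  main hn

end Pool.Agent.Results.MP_3d3a24_gt.Counterexample
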